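import Pool.Agent.H55.GW.Targets3

/-!
CHO, LNK, BTF: laminar decompositions (MP_97b7aa_co).
-/

set_option autoImplicit false

namespace Pool.Agent.H89.GW

open Pool.Agent.H55.GW

/-- the sets of the subtrees -/
def mems : BT → Set (Set ℕ)
  | .leaf e => {{e}}
  | .node l r => insert (l.set ∪ r.set) (mems l ∪ mems r)

theorem mems_dec (f : Set ℕ → ℕ) (k : ℕ) : ∀ t : BT, t.Ok f k → Dec f k t.set (mems t)
  | .leaf e => by
    intro h
    have hm : ∀ D, D ∈ mems (.leaf e) ↔ D = {e} := fun D => by simp [mems]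
    refine ⟨(hm _).2 rfl, ?_, ?_, ?_, ?_, ?_⟩
    · intro D hD
      rw [(hm D).1 hD]
      exact Set.singleton_nonempty e
    · intro D hD
      rw [(hm D).1 hD]
      exact Set.Subset.rfl
    · intro D hD D' hD'
      left
      rw [(hm D).1 hD, (hm D').1 hD']
    · intro D hD
      exact Or.inl ⟨e, (hm D).1 hD⟩
    · intro D hD
      rw [(hm D).1 hD]
      exact h
  | .node l r => by
    intro h
    obtain ⟨h1, h2, h3, h4⟩ := h
    have hl := mems_dec f k l h3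
    have hr := mems_dec f k r h4
    have hm : ∀ D, D ∈ mems (.node l r) ↔ D = l.set ∪ r.set ∨ D ∈ mems l ∨ D ∈ mems r :=
      fun D => by simp [mems]
    have hsub : ∀ D, D ∈ mems (.node l r) → D ⊆ l.set ∪ r.set := by
      intro D hD
      rcases (hm D).1 hD with rfl | hD | hD
      · exact Set.Subset.rfl
      · exact (hl.sub D hD).trans Set.subset_union_left
      · exact (hr.sub D hD).trans Set.subset_union_right
    refine ⟨(hm _).2 (Or.inl rfl), ?_, hsub, ?_, ?_, ?_⟩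
    · intro D hD
      rcases (hm D).1 hD with rfl | hD | hD
      · exact (hl.ne _ hl.top).mono Set.subset_union_left
      · exact hl.ne D hD
      · exact hr.ne D hD
    · intro D hD D' hD'
      rcases (hm D).1 hD with h | h | h
      · right; left
        rw [h]
        exact hsub D' hD'
      · rcases (hm D').1 hD' with h' | h' | h'
        · left
          rw [h']
          exact hsub D hD
        · exact hl.lam D h D' h'
        · right; right
          exact h2.mono (hl.sub D h) (hr.sub D' h')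
      · rcases (hm D').1 hD' with h' | h' | h'
        · left
          rw [h']
          exact hsub D hD
        · right; right
          exact (h2.mono (hl.sub D' h') (hr.sub D h)).symm
        · exact hr.lam D h D' h'
    · intro D hD
      rcases (hm D).1 hD with h | h | h
      · right
        exact ⟨l.set, (hm _).2 (Or.inr (Or.inl hl.top)), r.set,
          (hm _).2 (Or.inr (Or.inr hr.top)), h2, h.symm⟩
      · rcases hl.split D h with h' | ⟨D₁, hD₁, D₂, hD₂, h5, h6⟩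
        · exact Or.inl h'
        · exact Or.inr ⟨D₁, (hm _).2 (Or.inr (Or.inl hD₁)), D₂, (hm _).2 (Or.inr (Or.inl hD₂)),
            h5, h6⟩
      · rcases hr.split D h with h' | ⟨D₁, hD₁, D₂, hD₂, h5, h6⟩
        · exact Or.inl h'
        · exact Or.inr ⟨D₁, (hm _).2 (Or.inr (Or.inr hD₁)), D₂, (hm _).2 (Or.inr (Or.inr hD₂)),
            h5, h6⟩
    · intro D hD
      rcases (hm D).1 hD with h | h | h
      · rw [h]; exact h1
      · exact hl.le D h
      · exact hr.le D h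

/-- BTF -/
theorem btf : T_BTF := by
  rintro f k E ⟨t, ht, rfl⟩
  exact ⟨mems t, mems_dec f k t ht⟩

/-- CHO -/
theorem cho : T_CHO := by
  intro f k E 𝒟 hE hD hL
  unfold Lkd at hL
  push Not at hL
  obtain ⟨R, hR, S, hS, hRS, ℓ, hℓ, Z₀, hZ1, hZ2, hZ3⟩ := hL
  -- minimum sets
  have hmin : ∃ A, (R ⊆ A ∧ A ⊆ S) ∧ ∀ Z, R ⊆ Z → Z ⊆ S → f A ≤ f Z := by
    obtain ⟨A, hA, hA'⟩ := (measure f).wf.has_min {A : Set ℕ | R ⊆ A ∧ A ⊆ S} ⟨Z₀, hZ1, hZ2⟩
    exact ⟨A, hA, fun Z h1 h2 => not_lt.1 (hA' Z ⟨h1, h2⟩)⟩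
  let spl : Set ℕ → Set (Set ℕ) := fun A =>
    {D | D ∈ 𝒟 ∧ D ⊆ S ∧ Disjoint D R ∧ (D ∩ A).Nonempty ∧ (D \ A).Nonempty}
  have hspl : ∀ A D, D ∈ spl A ↔
    D ∈ 𝒟 ∧ D ⊆ S ∧ Disjoint D R ∧ (D ∩ A).Nonempty ∧ (D \ A).Nonempty := fun A D => Iff.rfl
  have hfin : ∀ A, (spl A).Finite := fun A =>
    (hE.powerset).subset (fun D hD' => hD.sub D hD'.1)
  obtain ⟨A, ⟨⟨hA1, hA2⟩, hA3⟩, hA4⟩ := (measure (fun A => (spl A).ncard)).wf.has_min
    {A : Set ℕ | (R ⊆ A ∧ A ⊆ S) ∧ ∀ Z, R ⊆ Z → Z ⊆ S → f A ≤ f Z} hmin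
  refine ⟨R, S, A, hR, hS, hA1, hA2, hA3, ?_, ?_⟩
  · intro P hP h1 h2
    exact (hA3 Z₀ hZ1 hZ2).trans_lt (hZ3.trans_le (hℓ P hP h1 h2))
  · intro D hDD hDS hDR h1 h2
    have hDA : D ∈ spl A := ⟨hDD, hDS, hDR, h1, h2⟩
    constructor
    · by_contra hlt
      push Not at hlt
      have h3 : R ⊆ A ∪ D := hA1.trans Set.subset_union_left
      have h4 : A ∪ D ⊆ S := Set.union_subset hA2 hDS
      refine hA4 (A ∪ D) ⟨⟨h3, h4⟩, fun Z hz1 hz2 => hlt.trans (hA3 Z hz1 hz2)⟩ ?_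
      refine Set.ncard_lt_ncard ⟨?_, fun h => ?_⟩ (hfin A)
      · rintro D' ⟨h5, h6, h7, h8, h9⟩
        rcases hD.lam D hDD D' h5 with h | h | h
        · exact ⟨h5, h6, h7, h1.mono (Set.inter_subset_inter_left _ h),
            h9.mono (Set.sdiff_subset_sdiff_right Set.subset_union_left)⟩
        · exfalso
          obtain ⟨x, hx1, hx2⟩ := h9
          exact hx2 (Or.inr (h hx1))
        · refine ⟨h5, h6, h7, ?_, h9.mono (Set.sdiff_subset_sdiff_right Set.subset_union_left)⟩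
          obtain ⟨x, hx1, hx2⟩ := h8
          rcases hx2 with hx2 | hx2
          · exact ⟨x, hx1, hx2⟩
          · exact absurd hx1 (Set.disjoint_left.1 h hx2)
      · obtain ⟨-, -, -, -, x, hx1, hx2⟩ := h hDA
        exact hx2 (Or.inr hx1)
    · by_contra hlt
      push Not at hlt
      have h3 : R ⊆ A \ D := fun x hx => ⟨hA1 hx, fun h => Set.disjoint_left.1 hDR h hx⟩
      have h4 : A \ D ⊆ S := Set.sdiff_subset.trans hA2
      refine hA4 (A \ D) ⟨⟨h3, h4⟩, fun Z hz1 hz2 => hlt.trans (hA3 Z hz1 hz2)⟩ ?_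
      refine Set.ncard_lt_ncard ⟨?_, fun h => ?_⟩ (hfin A)
      · rintro D' ⟨h5, h6, h7, h8, h9⟩
        rcases hD.lam D hDD D' h5 with h | h | h
        · exact ⟨h5, h6, h7, h8.mono (Set.inter_subset_inter_right _ Set.sdiff_subset),
            h2.mono (Set.sdiff_subset_sdiff_left h)⟩
        · exfalso
          obtain ⟨x, hx1, hx2⟩ := h8
          exact hx2.2 (h hx1)
        · refine ⟨h5, h6, h7, h8.mono (Set.inter_subset_inter_right _ Set.sdiff_subset), ?_⟩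
          obtain ⟨x, hx1, hx2⟩ := h9
          exact ⟨x, hx1, fun hxA => hx2 ⟨hxA, fun hxD => Set.disjoint_left.1 h hxD hx1⟩⟩
      · obtain ⟨-, -, -, ⟨x, hx1, hx2⟩, -⟩ := h hDA
        exact hx2.2 hx1

theorem geo (B : ℕ) (a : ℕ → ℕ) (ha : ∀ y, a y ≤ B) (x : ℕ) :
    ∑ y ∈ Finset.range x, a y * (B + 1) ^ y < (B + 1) ^ x := by
  induction x with
  | zero => simp
  | succ x ih =>
    rw [Finset.sum_range_succ, pow_succ]
    have := Nat.mul_le_mul_right ((B + 1) ^ x) (ha x)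
    nlinarith

theorem num (B x : ℕ) (a b : ℕ → ℕ) (ha : ∀ y, a y ≤ B) (h1 : ∀ y, x < y → a y ≤ b y)
    (h2 : a x < b x) (k : ℕ) (hk : x ≤ k) :
    ∑ y ∈ Finset.range (k + 1), a y * (B + 1) ^ y <
      ∑ y ∈ Finset.range (k + 1), b y * (B + 1) ^ y := by
  induction k, hk using Nat.le_induction with
  | base =>
    rw [Finset.sum_range_succ, Finset.sum_range_succ]
    have h3 := geo B a ha x
    have h4 : (a x + 1) * (B + 1) ^ x ≤ b x * (B + 1) ^ x := Nat.mul_le_mul_right _ h2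
    have h5 : 0 ≤ ∑ y ∈ Finset.range x, b y * (B + 1) ^ y := Nat.zero_le _
    nlinarith
  | succ k hk ih =>
    rw [Finset.sum_range_succ, Finset.sum_range_succ _ (k + 1)]
    have h3 : a (k + 1) * (B + 1) ^ (k + 1) ≤ b (k + 1) * (B + 1) ^ (k + 1) :=
      Nat.mul_le_mul_right _ (h1 _ (by omega))
    omega

/-- LNK -/
theorem lnk (hCHO : T_CHO) (hIMA : T_IMA) (hIMB : T_IMB) : T_LNK := by
  intro f k E 𝒟₀ hE hf h𝒟₀
  by_contra hno
  push Not at hno
  have hfinP : (Set.powerset E ×ˢ Set.powerset E).Finite := hE.powerset.prod hE.powerset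
  have hbd : ∀ 𝒟, Dec f k E 𝒟 → ∀ x, pif f x 𝒟 ≤ (Set.powerset E ×ˢ Set.powerset E).ncard := by
    intro 𝒟 h𝒟 x
    refine Set.ncard_le_ncard ?_ hfinP
    rintro ⟨P, Q⟩ ⟨hP, hQ, -, -⟩
    exact ⟨h𝒟.sub P hP, h𝒟.sub Q hQ⟩
  set B := (Set.powerset E ×ˢ Set.powerset E).ncard with hB
  have key : ∀ n : ℕ, ∀ 𝒟, Dec f k E 𝒟 →
      ∑ y ∈ Finset.range (k + 1), pif f y 𝒟 * (B + 1) ^ y = n → False := by
    intro n
    induction n using Nat.strong_induction_on with
    | _ n ih =>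
      intro 𝒟 h𝒟 hn
      obtain ⟨R, S, A, hO⟩ := hCHO f k E 𝒟 hE h𝒟 (hno 𝒟 h𝒟)
      have h𝒟' := hIMA f k E 𝒟 R S A hE hf h𝒟 hO
      obtain ⟨x, hx1, hx2⟩ := hIMB f k E 𝒟 R S A hE hf h𝒟 hO
      have hxk : x ≤ k := by
        have hpos : 0 < pif f x 𝒟 := lt_of_le_of_lt (Nat.zero_le _) hx2
        unfold pif at hpos
        obtain ⟨⟨P, Q⟩, hP, hQ, hPQ, hT⟩ := Set.nonempty_of_ncard_ne_zero hpos.ne'
        exact (hT P hP Set.Subset.rfl hPQ).trans (h𝒟.le P hP)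
      have hlt := num B x (fun y => pif f y (impD 𝒟 R S A)) (fun y => pif f y 𝒟)
        (fun y => hbd _ h𝒟' y) hx1 hx2 k hxk
      exact ih _ (hn ▸ hlt) _ h𝒟' rfl
  exact key _ 𝒟₀ h𝒟₀ rfl

end Pool.Agent.H89.GW
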